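import Pool.Agent.helper69.AD.GS6

/-! XC1: the regions of a filling pair have trivial stabilisers. -/

open scoped MatrixGroups LinearAlgebra.Projectivization
open Matrix UpperHalfPlane

namespace AdSBend

noncomputable section

open LeafSystem

variable {Γ : Subgroup SL(2, ℝ)}

theorem XC1_neg_smul (g : SL(2, ℝ)) (z : ℍ) : (-g) • z = g • z := by
  apply UpperHalfPlane.ext
  rw [UpperHalfPlane.coe_specialLinearGroup_apply, UpperHalfPlane.coe_specialLinearGroup_apply]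
  have h : ∀ i j, ((-g : SL(2, ℝ)) i j : ℝ) = -(g i j) := by
    intro i j
    rw [Matrix.SpecialLinearGroup.coe_neg]; rfl
  simp only [h, map_neg, Complex.ofReal_neg]
  rw [← neg_div_neg_eq]
  congr 1 <;> ring

theorem XC1_PEq_smul {g h : SL(2, ℝ)} (e : PEq g h) (z : ℍ) : g • z = h • z := by
  rcases e with e | e
  · rw [e]
  · rw [e, XC1_neg_smul]

theorem XC1_neg_smul_bd (g : SL(2, ℝ)) (x : Bd) : (-g) • x = g • x := by
  induction x using Projectivization.ind with | _ u hu =>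
  rw [Projectivization.smul_mk, Projectivization.smul_mk, Projectivization.mk_eq_mk_iff']
  refine ⟨-1, ?_⟩
  have h1 : ((-g : SL(2, ℝ))).1.mulVec u = -(g.1.mulVec u) := by
    rw [Matrix.SpecialLinearGroup.coe_neg, Matrix.neg_mulVec]
  exact (neg_one_smul ℝ (g.1.mulVec u)).trans h1.symm

theorem XC1_PEq_smul_bd {g h : SL(2, ℝ)} (e : PEq g h) (x : Bd) : g • x = h • x := by
  rcases e with e | e
  · rw [e]
  · rw [e, XC1_neg_smul_bd]

theorem XC1_inv (h5 : PN5_stmt) (S : LeafSystem Γ) {z : ℍ} {γ : SL(2, ℝ)} (hγ : γ ∈ Γ)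
    (hs : S.SamePl z (γ • z)) : S.SamePl z (γ⁻¹ • z) := by
  obtain ⟨p1, p2, p3, p4, -⟩ := h5 Γ S
  have h := p4 γ⁻¹ (inv_mem hγ) _ _ hs
  rw [inv_smul_smul] at h
  exact p1 _ _ h

theorem XC1_mul (h5 : PN5_stmt) (S : LeafSystem Γ) {z : ℍ} (hz : S.OffPt z) {γ δ : SL(2, ℝ)}
    (hγ : γ ∈ Γ) (hδ : δ ∈ Γ)
    (hs : S.SamePl z (γ • z)) (hs' : S.SamePl z (δ • z)) : S.SamePl z ((γ * δ) • z) := by
  obtain ⟨p1, p2, p3, p4, -⟩ := h5 Γ S
  have h := p4 γ hγ _ _ hs'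
  rw [mul_smul]
  exact p2 _ _ _ hz (p3 γ hγ z hz) (p3 γ hγ _ (p3 δ hδ z hz)) hs h

theorem XC1_pow (h5 : PN5_stmt) (S : LeafSystem Γ) {z : ℍ} (hz : S.OffPt z) {γ : SL(2, ℝ)}
    (hγ : γ ∈ Γ) (hs : S.SamePl z (γ • z)) (n : ℕ) : S.SamePl z ((γ ^ n) • z) := by
  induction n with
  | zero =>
    intro p hp
    rw [pow_zero, one_smul]
    unfold SepPts
    exact not_lt.mpr (mul_self_nonneg _)
  | succ n ih =>
    rw [pow_succ]
    exact XC1_mul h5 S hz (pow_mem hγ n) hγ ih hs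

theorem XC1_zpow (h5 : PN5_stmt) (S : LeafSystem Γ) {z : ℍ} (hz : S.OffPt z) {γ : SL(2, ℝ)}
    (hγ : γ ∈ Γ) (hs : S.SamePl z (γ • z)) (n : ℤ) : S.SamePl z ((γ ^ n) • z) := by
  obtain ⟨m, rfl | rfl⟩ := n.eq_nat_or_neg
  · rw [zpow_natCast]; exact XC1_pow h5 S hz hγ hs m
  · rw [_root_.zpow_neg, zpow_natCast]
    exact XC1_inv h5 S (pow_mem hγ m) (XC1_pow h5 S hz hγ hs m)

theorem XC1_not_linked_self (h4 : BD4_stmt) (x y : Bd) : ¬ Linked x y x y := by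
  rintro (⟨h, -⟩ | ⟨h, -⟩)
  · exact (h4.1 _ _ _ h).1 rfl
  · exact (h4.1 _ _ _ h).2.1 rfl

theorem XC1_not_linked_smul (h4 : BD4_stmt) {h : SL(2, ℝ)} {p : Bd × Bd}
    (h1 : h • p.1 = p.1) (h2 : h • p.2 = p.2) : ¬ Linked p.1 p.2 (h • p.1) (h • p.2) := by
  rw [h1, h2]
  exact XC1_not_linked_self h4 _ _

/-- XC1 -/
theorem XC1 (h4 : BD4_stmt) (hPN5 : PN5_stmt) (hBR2 : BR2_stmt) (hGM6 : GM6_stmt)
    (hCLD : CLD_stmt) (hCLE : CLE_stmt) (hCLH : CLH_stmt) : XC1_stmt := by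
  intro Γ hΓ lm lp hfill z hza hzb γ₀ hγ₀ hsep
  obtain ⟨Sa, hSa⟩ := hBR2 Γ lm
  obtain ⟨Sb, hSb⟩ := hBR2 Γ lp
  have offa : Sa.OffPt z := fun p hp => hza _ _ ((hSa p).1 hp)
  have offb : Sb.OffPt z := fun p hp => hzb _ _ ((hSb p).1 hp)
  have sama : Sa.SamePl z (γ₀ • z) := fun p hp => hsep p (Or.inl ((hSa p).1 hp))
  have samb : Sb.SamePl z (γ₀ • z) := fun p hp => hsep p (Or.inr ((hSb p).1 hp))
  by_contra hne
  set E : Set SL(2, ℝ) := {g | g ∈ Γ ∧ ¬ PEq g 1 ∧ Sa.SamePl z (g • z) ∧ Sb.SamePl z (g • z)}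
    with hE
  obtain ⟨γ, hγE, hmin⟩ := hCLD Γ hΓ E (fun g hg => hg.1) ⟨γ₀, hγ₀, hne, sama, samb⟩
  obtain ⟨hγ, hγ1, hγa, hγb⟩ := hγE
  obtain ⟨p, hp, hpc⟩ := hGM6 Γ hΓ γ hγ hγ1
  obtain ⟨a1, a2, a3⟩ := hCLH Γ hΓ Sa z offa γ hγ hγa p hp
  obtain ⟨b1, b2, b3⟩ := hCLH Γ hΓ Sb z offb γ hγ hγb p hp
  have hsimple : IsSimpleClosedGeodesic Γ p.1 p.2 := by
    refine ⟨hpc, fun h hh hl => ?_⟩
    have ha := a3 h hh hl
    have hb := b3 h hh hl
    have hmem : ∀ n : ℤ, γ ^ n * h⁻¹ ∈ Γ := fun n => mul_mem (zpow_mem hγ n) (inv_mem hh)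
    have hn1 : ∀ n : ℤ, ¬ PEq (γ ^ n * h⁻¹) 1 := by
      intro n hP
      have hfix : ∀ x : Bd, γ ^ n • (h⁻¹ • x) = x := by
        intro x
        rw [← mul_smul, XC1_PEq_smul_bd hP, one_smul]
      have hγp1 : ∀ m : ℤ, γ ^ m • p.1 = p.1 := by
        intro m
        have : γ ∈ MulAction.stabilizer SL(2, ℝ) p.1 := hp.2.1
        exact zpow_mem this m
      have hγp2 : ∀ m : ℤ, γ ^ m • p.2 = p.2 := by
        intro m
        have : γ ∈ MulAction.stabilizer SL(2, ℝ) p.2 := hp.2.2.1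
        exact zpow_mem this m
      have e1 : h • p.1 = p.1 := by
        have := hfix (h • p.1)
        rw [inv_smul_smul, hγp1] at this
        exact this.symm
      have e2 : h • p.2 = p.2 := by
        have := hfix (h • p.2)
        rw [inv_smul_smul, hγp2] at this
        exact this.symm
      exact XC1_not_linked_smul h4 e1 e2 hl
    have hnofix : ∀ (n : ℤ) (z' : ℍ), (γ ^ n * h⁻¹) • z' ≠ z' := by
      intro n z' hz'
      rcases hΓ.free _ (hmem n) z' hz' with h1 | h1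
      · exact hn1 n (Or.inl h1)
      · exact hn1 n (Or.inr h1)
    obtain ⟨n, hlt, -, -⟩ := hCLE γ h p hp hl hnofix
    have := hmin (γ ^ n * h⁻¹) ⟨hmem n, hn1 n,
      XC1_mul hPN5 Sa offa (zpow_mem hγ n) (inv_mem hh) (XC1_zpow hPN5 Sa offa hγ hγa n)
        (XC1_inv hPN5 Sa hh ha),
      XC1_mul hPN5 Sb offb (zpow_mem hγ n) (inv_mem hh) (XC1_zpow hPN5 Sb offb hγ hγb n)
        (XC1_inv hPN5 Sb hh hb)⟩
    linarith
  obtain ⟨x', y', hw, hl⟩ := hfill p.1 p.2 hsimple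
  rcases hw with hw | hw
  · exact a1 (x', y') ((hSa (x', y')).2 hw) hl
  · exact b1 (x', y') ((hSb (x', y')).2 hw) hl

end

end AdSBend
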