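import Pool.Agent.helper69.AD.GS6

/-! XC2: the leaves of a filling pair are connected by chains of crossing leaves. -/

open scoped MatrixGroups LinearAlgebra.Projectivization
open Matrix UpperHalfPlane

namespace AdSBend

noncomputable section

open LeafSystem

variable {Γ : Subgroup SL(2, ℝ)}

theorem XC2_neg_smul (g : SL(2, ℝ)) (z : ℍ) : (-g) • z = g • z := by
  apply UpperHalfPlane.ext
  rw [UpperHalfPlane.coe_specialLinearGroup_apply, UpperHalfPlane.coe_specialLinearGroup_apply]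
  have h : ∀ i j, ((-g : SL(2, ℝ)) i j : ℝ) = -(g i j) := by
    intro i j
    rw [Matrix.SpecialLinearGroup.coe_neg]; rfl
  simp only [h, map_neg, Complex.ofReal_neg]
  rw [← neg_div_neg_eq]
  congr 1 <;> ring

theorem XC2_PEq_smul {g h : SL(2, ℝ)} (e : PEq g h) (z : ℍ) : g • z = h • z := by
  rcases e with e | e
  · rw [e]
  · rw [e, XC2_neg_smul]

theorem XC2_cont (x y : Bd) : Continuous (fun z : ℍ => side z x y) := by
  unfold side
  have h1 : Continuous (fun z : ℍ => z.re) := UpperHalfPlane.continuous_re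
  have h2 : Continuous (fun z : ℍ => z.im) := UpperHalfPlane.continuous_im
  fun_prop

theorem XC2_ball (R : ℝ) : IsPreconnected (Metric.closedBall (I : ℍ) R) := by
  have h := UpperHalfPlane.image_coe_closedBall (I : ℍ) R
  have h1 : IsPreconnected (((↑) : ℍ → ℂ) '' Metric.closedBall (I : ℍ) R) := by
    rw [h]
    exact (convex_closedBall _ _).isPreconnected
  exact UpperHalfPlane.isEmbedding_coe.isInducing.isPreconnected_image.1 h1

/-- a continuous side function without zero on the ball has constant sign there -/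
theorem XC2_sign (R : ℝ) (x y : Bd) (z z' : ℍ) (hz : z ∈ Metric.closedBall (I : ℍ) R)
    (hz' : z' ∈ Metric.closedBall (I : ℍ) R) (h : SepPts x y z z') :
    ∃ w ∈ Metric.closedBall (I : ℍ) R, side w x y = 0 := by
  have hc := (XC2_cont x y).continuousOn (s := Metric.closedBall (I : ℍ) R)
  have hp := (XC2_ball R).image _ hc
  have hoc := hp.ordConnected
  have m1 : side z x y ∈ (fun z : ℍ => side z x y) '' Metric.closedBall (I : ℍ) R := ⟨z, hz, rfl⟩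
  have m2 : side z' x y ∈ (fun z : ℍ => side z x y) '' Metric.closedBall (I : ℍ) R :=
    ⟨z', hz', rfl⟩
  have h0 : (0 : ℝ) ∈ (fun z : ℍ => side z x y) '' Metric.closedBall (I : ℍ) R := by
    unfold SepPts at h
    rcases lt_or_ge (side z x y) 0 with h1 | h1
    · have h2 : 0 < side z' x y := by
        by_contra h3
        nlinarith
      exact hoc.out m1 m2 ⟨h1.le, h2.le⟩
    · have h2 : side z' x y < 0 := by
        by_contra h3
        push Not at h3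
        have := mul_nonneg h1 h3
        linarith
      exact hoc.out m2 m1 ⟨h2.le, h1⟩
  obtain ⟨w, hw, e⟩ := h0
  exact ⟨w, hw, e⟩

/-- points of a geodesic that meets no leaf are not separated -/
theorem XC2_geod (hPT2 : PT2_stmt) (hPT4 : PT4_stmt) (lm lp : WeightedMulticurve Γ)
    (U V : Bd) (hUV : U ≠ V) (hne : ∀ q, IsLf lm lp q → q.1 ≠ q.2)
    (h1 : ∀ q, IsLf lm lp q → ¬ Linked U V q.1 q.2)
    (h2 : ¬ IsLf lm lp (U, V)) (h3 : ¬ IsLf lm lp (V, U)) :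
    (∀ z, side z U V = 0 → ∀ q, IsLf lm lp q → side z q.1 q.2 ≠ 0) ∧
    (∀ z z', side z U V = 0 → side z' U V = 0 → ∀ q, IsLf lm lp q →
      ¬ SepPts q.1 q.2 z z') := by
  have hoff : ∀ z, side z U V = 0 → ∀ q, IsLf lm lp q → side z q.1 q.2 ≠ 0 := by
    intro z hz q hq h0
    rcases hPT4 (U, V) q z hUV (hne q hq) hz h0 with h | h | h
    · exact h2 (h ▸ hq)
    · exact h3 (h ▸ hq)
    · exact h1 q hq h
  refine ⟨hoff, ?_⟩
  intro z z' hz hz' q hq hs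
  unfold SepPts at hs
  set a := side z q.1 q.2 with ha
  set b := side z' q.1 q.2 with hb
  have hab : a - b ≠ 0 := by
    intro h
    have : a = b := by linarith
    rw [this] at hs
    nlinarith
  have hs01 : 0 ≤ a / (a - b) ∧ a / (a - b) ≤ 1 := by
    rcases lt_or_gt_of_ne hab with h | h
    · have ha0 : a < 0 := by
        by_contra h'
        push Not at h'
        nlinarith
      have hb0 : 0 < b := by
        by_contra h'
        push Not at h'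
        nlinarith
      constructor
      · exact div_nonneg_of_nonpos ha0.le h.le
      · rw [div_le_one_of_neg h]; linarith
    · have ha0 : 0 < a := by
        by_contra h'
        push Not at h'
        nlinarith
      have hb0 : b < 0 := by
        by_contra h'
        push Not at h'
        nlinarith
      constructor
      · exact div_nonneg ha0.le h.le
      · rw [div_le_one h]; linarith
  obtain ⟨w, hw⟩ := hPT2.1 z z' (a / (a - b)) hs01.1 hs01.2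
  have e1 := hPT2.2.1 z z' w _ hw U V
  rw [hz, hz'] at e1
  have e2 := hPT2.2.1 z z' w _ hw q.1 q.2
  rw [← ha, ← hb] at e2
  apply hoff w (by rw [e1]; ring) q hq
  rw [e2]
  field_simp
  ring

theorem XC2_Dm (hPT5 : PT5_stmt) (t : ℝ) : (Dm t • (I : ℍ)).re = 0 ∧
    (Dm t • (I : ℍ)).im = Real.exp t := by
  have h1 := hPT5.2.2 t UpperHalfPlane.I
  constructor
  · have := congrArg Complex.re h1
    simpa using this
  · have := congrArg Complex.im h1
    simpa [← Complex.ofReal_exp] using this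

theorem XC2_dist (hPT5 : PT5_stmt) (F : SL(2, ℝ)) (s t : ℝ) :
    |s - t| ≤ dist (F • (Dm s • (I : ℍ))) (F • (Dm t • (I : ℍ))) := by
  rw [dist_smul]
  have h := UpperHalfPlane.dist_log_im_le (Dm s • (I : ℍ)) (Dm t • (I : ℍ))
  rw [(XC2_Dm hPT5 s).2, (XC2_Dm hPT5 t).2, Real.log_exp, Real.log_exp, Real.dist_eq] at h
  exact h

theorem XC2_inv_lf (lm lp : WeightedMulticurve Γ) {γ : SL(2, ℝ)} (hγ : γ ∈ Γ) (q : Bd × Bd) :
    IsLf lm lp (ga γ q) ↔ IsLf lm lp q := by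
  unfold IsLf
  rw [lm.invariant γ hγ, lp.invariant γ hγ]

theorem XC2_sep_smul (hPT1 : PT1_stmt) (γ : SL(2, ℝ)) (q : Bd × Bd) (z z' : ℍ) :
    SepPts (ga γ q).1 (ga γ q).2 (γ • z) (γ • z') ↔ SepPts q.1 q.2 z z' := by
  unfold SepPts
  obtain ⟨a1, a2, a3, -⟩ := hPT1 γ z q.1 q.2
  obtain ⟨b1, b2, b3, -⟩ := hPT1 γ z' q.1 q.2
  rw [mul_neg_iff, mul_neg_iff]
  show (0 < side (γ • z) (γ • q.1) (γ • q.2) ∧ side (γ • z') (γ • q.1) (γ • q.2) < 0 ∨
    side (γ • z) (γ • q.1) (γ • q.2) < 0 ∧ 0 < side (γ • z') (γ • q.1) (γ • q.2)) ↔ _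
  rw [a1, a2, b1, b2]

/-- a geodesic that meets no leaf cannot exist -/
theorem XC2_nogeod (hPT1 : PT1_stmt) (hPT5 : PT5_stmt) (hBD6 : BD6_stmt) (hBR2 : BR2_stmt)
    (hGM4 : GM4_stmt) (hXC1 : XC1_stmt) (hΓ : IsClosedSurfaceGroup Γ)
    (lm lp : WeightedMulticurve Γ) (hfill : Fill lm lp) (U V : Bd) (hUV : U ≠ V)
    (hoff : ∀ z, side z U V = 0 → ∀ q, IsLf lm lp q → side z q.1 q.2 ≠ 0)
    (hsep : ∀ z z', side z U V = 0 → side z' U V = 0 → ∀ q, IsLf lm lp q →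
      ¬ SepPts q.1 q.2 z z') : False := by
  obtain ⟨Sa, hSa⟩ := hBR2 Γ lm
  obtain ⟨Sb, hSb⟩ := hBR2 Γ lp
  obtain ⟨F, hF⟩ := hBD6.1 (U, V) hUV
  set z : ℕ → ℍ := fun n => F • (Dm n • (I : ℍ)) with hz
  have hzs : ∀ n, side (z n) U V = 0 := by
    intro n
    obtain ⟨h1, h2⟩ := hPT5.1 F (U, V) (Dm n • (I : ℍ)) hF
    rw [(XC2_Dm hPT5 _).1] at h1 h2
    simp only [lt_irrefl, iff_false, not_lt] at h1 h2
    exact le_antisymm h2 h1
  obtain ⟨K, hK, hcov⟩ := hΓ.cocompact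
  obtain ⟨R, hR⟩ := hK.isBounded.subset_closedBall (I : ℍ)
  choose γ hγ hγK using fun n => hcov (z n)
  have hfa := hGM4 Γ hΓ Sa _ (isCompact_closedBall (I : ℍ) R)
  have hfb := hGM4 Γ hΓ Sb _ (isCompact_closedBall (I : ℍ) R)
  set Λ : Set (Bd × Bd) := {p | IsLf lm lp p ∧ ∃ z ∈ Metric.closedBall (I : ℍ) R,
    side z p.1 p.2 = 0} with hΛ
  have hΛf : Λ.Finite := by
    apply (hfa.union hfb).subset
    rintro p ⟨hp | hp, hz⟩
    · exact Or.inl ⟨(hSa p).2 hp, hz⟩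
    · exact Or.inr ⟨(hSb p).2 hp, hz⟩
  have : Finite Λ := hΛf
  obtain ⟨y, hy⟩ := Finite.exists_infinite_fiber
    (fun n : ℕ => ({q : Λ | 0 < side (γ n • z n) q.1.1 q.1.2} : Set Λ))
  set T : Set ℕ := (fun n : ℕ => ({q : Λ | 0 < side (γ n • z n) q.1.1 q.1.2} : Set Λ)) ⁻¹' {y}
    with hT
  have hTi : T.Infinite := Set.infinite_coe_iff.1 hy
  have hoffw : ∀ n, ∀ q, IsLf lm lp q → side (γ n • z n) q.1 q.2 ≠ 0 := by
    intro n q hq h0
    have hq' : IsLf lm lp (ga (γ n)⁻¹ q) := (XC2_inv_lf lm lp (inv_mem (hγ n)) q).2 hq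
    apply hoff (z n) (hzs n) _ hq'
    have h3 := (hPT1 (γ n) (z n) ((γ n)⁻¹ • q.1) ((γ n)⁻¹ • q.2)).2.2.1
    rw [smul_inv_smul, smul_inv_smul] at h3
    exact h3.1 h0
  have hball : ∀ n, γ n • z n ∈ Metric.closedBall (I : ℍ) R := fun n => hR (hγK n)
  have hreg : ∀ n ∈ T, ∀ m ∈ T, ∀ q, IsLf lm lp q →
      ¬ SepPts q.1 q.2 (γ n • z n) (γ m • z m) := by
    intro n hn m hm q hq hs
    by_cases hqΛ : q ∈ Λ
    · have hnm : ({q : Λ | 0 < side (γ n • z n) q.1.1 q.1.2} : Set Λ) =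
          {q : Λ | 0 < side (γ m • z m) q.1.1 q.1.2} := by
        have h1 : ({q : Λ | 0 < side (γ n • z n) q.1.1 q.1.2} : Set Λ) = y := hn
        have h2 : ({q : Λ | 0 < side (γ m • z m) q.1.1 q.1.2} : Set Λ) = y := hm
        rw [h1, h2]
      have h1 : 0 < side (γ n • z n) q.1 q.2 ↔ 0 < side (γ m • z m) q.1 q.2 := by
        have := Set.ext_iff.1 hnm ⟨q, hqΛ⟩
        exact this
      have n1 := hoffw n q hq
      have n2 := hoffw m q hq
      unfold SepPts at hs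
      rw [mul_neg_iff] at hs
      rcases hs with ⟨h2, h3⟩ | ⟨h2, h3⟩
      · exact absurd (h1.1 h2) (not_lt.2 h3.le)
      · exact absurd (h1.2 h3) (not_lt.2 h2.le)
    · obtain ⟨w, hw, h0⟩ := XC2_sign R q.1 q.2 _ _ (hball n) (hball m) hs
      exact hqΛ ⟨hq, w, hw, h0⟩
  -- equal elements
  have hPE : ∀ n ∈ T, ∀ m ∈ T, PEq ((γ n)⁻¹ * γ m) 1 := by
    intro n hn m hm
    have hδ : (γ n)⁻¹ * γ m ∈ Γ := mul_mem (inv_mem (hγ n)) (hγ m)
    apply hXC1 Γ hΓ lm lp hfill (z m) (fun x y h => hoff (z m) (hzs m) (x, y) (Or.inl h))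
      (fun x y h => hoff (z m) (hzs m) (x, y) (Or.inr h)) _ hδ
    intro p hp hs
    -- z m ~ z n
    have s1 := hsep (z m) (z n) (hzs m) (hzs n) p hp
    have s2 : ¬ SepPts p.1 p.2 (z n) (((γ n)⁻¹ * γ m) • z m) := by
      have h1 := hreg n hn m hm (ga (γ n) p) ((XC2_inv_lf lm lp (hγ n) p).2 hp)
      intro h2
      apply h1
      rw [← XC2_sep_smul hPT1 (γ n)] at h2
      have e : γ n • (((γ n)⁻¹ * γ m) • z m) = γ m • z m := by
        rw [smul_smul, mul_inv_cancel_left]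
      rw [e] at h2
      exact h2
    have n1 := hoff (z n) (hzs n) p hp
    unfold SepPts at s1 s2 hs
    rw [not_lt] at s1 s2
    set a := side (z m) p.1 p.2
    set b := side (z n) p.1 p.2
    set c := side (((γ n)⁻¹ * γ m) • z m) p.1 p.2
    have hb2 : 0 < b ^ 2 := by positivity
    have h3 : 0 ≤ (a * b) * (b * c) := mul_nonneg s1 s2
    have h4 : (a * b) * (b * c) = (a * c) * b ^ 2 := by ring
    rw [h4] at h3
    nlinarith
  obtain ⟨m0, hm0⟩ := hTi.nonempty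
  obtain ⟨n, hn, hnb⟩ := hTi.exists_gt (m0 + Nat.ceil (2 * R) + 1)
  have e1 : γ m0 • z n = γ n • z n := by
    have h1 := XC2_PEq_smul (hPE n hn m0 hm0) (z n)
    rw [one_smul, mul_smul, inv_smul_eq_iff] at h1
    exact h1
  have d1 : dist (γ m0 • z n) (I : ℍ) ≤ R := by
    rw [e1]; exact Metric.mem_closedBall.1 (hball n)
  have d2 : dist (γ m0 • z m0) (I : ℍ) ≤ R := Metric.mem_closedBall.1 (hball m0)
  have d3 : dist (z n) (z m0) ≤ 2 * R := by
    rw [← dist_smul (γ m0)]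
    linarith [dist_triangle_right (γ m0 • z n) (γ m0 • z m0) (I : ℍ)]
  have d4 := XC2_dist hPT5 F n m0
  have d5 : ((n : ℝ) - m0) ≤ 2 * R := (le_abs_self _).trans (d4.trans d3)
  have d6 : (m0 : ℝ) + (Nat.ceil (2 * R) : ℕ) + 1 < n := by exact_mod_cast hnb
  have d7 := Nat.le_ceil (2 * R)
  linarith

theorem XC2_closed {lm lp : WeightedMulticurve Γ} {q : Bd × Bd} (hq : IsLf lm lp q) :
    IsClosedGeodesic Γ q.1 q.2 := by
  rcases hq with h | h
  · exact lm.closed _ _ h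
  · exact lp.closed _ _ h

theorem XC2_cross {lm lp : WeightedMulticurve Γ} (hfill : Fill lm lp) {q : Bd × Bd}
    (hq : IsLf lm lp q) : ∃ q', IsLf lm lp q' ∧ Linked q.1 q.2 q'.1 q'.2 := by
  have hs : IsSimpleClosedGeodesic Γ q.1 q.2 := by
    refine ⟨XC2_closed hq, fun γ hγ => ?_⟩
    rcases hq with h | h
    · exact lm.disjoint _ _ _ _ h (by rw [lm.invariant γ hγ]; exact h)
    · exact lp.disjoint _ _ _ _ h (by rw [lp.invariant γ hγ]; exact h)
  obtain ⟨x', y', h, hl⟩ := hfill _ _ hs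
  exact ⟨(x', y'), h, hl⟩

theorem XC2_swl {lm lp : WeightedMulticurve Γ} {q : Bd × Bd} (hq : IsLf lm lp q) :
    IsLf lm lp (sw q) := by
  unfold IsLf at hq ⊢
  rw [lm.symm, lp.symm]
  exact hq

/-- crossing relation -/
def XC2_R (lm lp : WeightedMulticurve Γ) (q q' : Bd × Bd) : Prop :=
  IsLf lm lp q ∧ IsLf lm lp q' ∧ Linked q.1 q.2 q'.1 q'.2

theorem XC2_two (hBD4 : BD4_stmt) (hGM3 : GM3_stmt) (hΓ : IsClosedSurfaceGroup Γ)
    {lm lp : WeightedMulticurve Γ} {c q : Bd × Bd} (hc : IsLf lm lp c) (hq : IsLf lm lp q)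
    (h1 : c ≠ q) (h2 : c ≠ sw q) (hl : ¬ Linked q.1 q.2 c.1 c.2) :
    (Behind q c.1 ∧ Behind q c.2) ∨ (Behind (sw q) c.1 ∧ Behind (sw q) c.2) := by
  obtain ⟨b41, b42, b43, b44, b45, b46⟩ := hBD4
  have cc := XC2_closed hc
  have cs := XC2_closed (XC2_swl hc)
  have qc := XC2_closed hq
  have qs := XC2_closed (XC2_swl hq)
  have n1 : c.1 ≠ q.1 := by
    intro h
    apply h1
    have := hGM3 Γ hΓ c.1 c.2 q.2 cc (h ▸ qc)
    exact Prod.ext h this
  have n2 : c.1 ≠ q.2 := by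
    intro h
    apply h2
    have := hGM3 Γ hΓ c.1 c.2 q.1 cc (h ▸ qs)
    exact Prod.ext h this
  have n3 : c.2 ≠ q.1 := by
    intro h
    apply h2
    have := hGM3 Γ hΓ c.2 c.1 q.2 cs (h ▸ qc)
    exact Prod.ext this h
  have n4 : c.2 ≠ q.2 := by
    intro h
    apply h1
    have := hGM3 Γ hΓ c.2 c.1 q.1 cs (h ▸ qs)
    exact Prod.ext this h
  have hq12 : q.1 ≠ q.2 := qc.1
  unfold Behind
  unfold Linked at hl
  push Not at hl
  rcases b44 q.1 c.1 q.2 n1.symm n2 hq12.symm with h3 | h3 <;>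
    rcases b44 q.1 c.2 q.2 n3.symm n4 hq12.symm with h4 | h4
  · exact Or.inl ⟨h3, h4⟩
  · exact absurd h4 (hl.1 h3)
  · exact absurd h3 (hl.2 h4)
  · exact Or.inr ⟨b42 _ _ _ h3, b42 _ _ _ h4⟩

theorem XC2_opp (hBD3 : BD3_stmt) (hBD4 : BD4_stmt) {c c' q : Bd × Bd} (h1 : Behind q c.1)
    (h2 : Behind q c.2) (h3 : Behind (sw q) c'.1) (h4 : Behind (sw q) c'.2) :
    ¬ Linked c.1 c.2 c'.1 c'.2 := by
  obtain ⟨b41, b42, b43, b44, b45, b46⟩ := hBD4
  obtain ⟨φ, φ1, φ2, φ3, φ4, φ5⟩ := hBD3 q.1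
  unfold Behind at h1 h2 h3 h4
  have k3 : Cyc q.1 q.2 c'.1 := b42 _ _ _ (b42 _ _ _ h3)
  have k4 : Cyc q.1 q.2 c'.2 := b42 _ _ _ (b42 _ _ _ h4)
  have n1 : c.1 ≠ q.1 := (b41 _ _ _ h1).1.symm
  have n2 : c.2 ≠ q.1 := (b41 _ _ _ h2).1.symm
  have n3 : c'.1 ≠ q.1 := (b41 _ _ _ k3).2.2
  have n4 : c'.2 ≠ q.1 := (b41 _ _ _ k4).2.2
  have n5 : q.2 ≠ q.1 := (b41 _ _ _ k4).1.symm
  have m1 := (φ3 _ _ n1 n5).1 h1
  have m2 := (φ3 _ _ n2 n5).1 h2
  have m3 := (φ3 _ _ n5 n3).1 k3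
  have m4 := (φ3 _ _ n5 n4).1 k4
  unfold Linked
  rw [φ4 _ _ _ n1 n3 n2, φ4 _ _ _ n1 n2 n4, φ4 _ _ _ n1 n4 n2, φ4 _ _ _ n1 n2 n3]
  rintro (⟨h | h | h, h' | h' | h'⟩ | ⟨h | h | h, h' | h' | h'⟩) <;>
    linarith [h.1, h.2, h'.1, h'.2]

/-- a class of leaves lies on one side of every leaf outside -/
theorem XC2_side (hBD3 : BD3_stmt) (hBD4 : BD4_stmt) (hBD12 : BD12_stmt) (hGM3 : GM3_stmt)
    (hΓ : IsClosedSurfaceGroup Γ)
    {lm lp : WeightedMulticurve Γ} {p q : Bd × Bd} (hp : IsLf lm lp p) (hq : IsLf lm lp q)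
    (hn : ∀ c, Relation.ReflTransGen (XC2_R lm lp) p c → c ≠ q ∧ c ≠ sw q ∧
      ¬ Linked q.1 q.2 c.1 c.2) :
    (∀ c, Relation.ReflTransGen (XC2_R lm lp) p c → Behind q c.1 ∧ Behind q c.2) ∨
    (∀ c, Relation.ReflTransGen (XC2_R lm lp) p c → Behind (sw q) c.1 ∧ Behind (sw q) c.2) := by
  obtain ⟨a1, a2, a3⟩ := hn p Relation.ReflTransGen.refl
  have hlsym := hBD12.2.2.2.2.2.2.2.2.2.1
  rcases XC2_two hBD4 hGM3 hΓ hp hq a1 a2 a3 with h | h
  · left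
    intro c hc
    induction hc with
    | refl => exact h
    | tail hbc hR ih =>
      obtain ⟨c1, c2, c3⟩ := hn _ (hbc.tail hR)
      rcases XC2_two hBD4 hGM3 hΓ hR.2.1 hq c1 c2 c3 with h' | h'
      · exact h'
      · exact absurd hR.2.2 (XC2_opp hBD3 hBD4 ih.1 ih.2 h'.1 h'.2)
  · right
    intro c hc
    induction hc with
    | refl => exact h
    | tail hbc hR ih =>
      obtain ⟨c1, c2, c3⟩ := hn _ (hbc.tail hR)
      rcases XC2_two hBD4 hGM3 hΓ hR.2.1 hq c1 c2 c3 with h' | h'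
      · exact absurd ((hlsym _ _ _ _).1 hR.2.2)
          (XC2_opp hBD3 hBD4 h'.1 h'.2 ih.1 ih.2)
      · exact h'

theorem XC2_core (hBD2 : BD2_stmt) (hBD3 : BD3_stmt) (hBD4 : BD4_stmt) (hBD6 : BD6_stmt)
    (hBD12 : BD12_stmt) (hPT1 : PT1_stmt) (hPT2 : PT2_stmt) (hPT4 : PT4_stmt) (hPT5 : PT5_stmt)
    (hGM1 : GM1_stmt) (hGM3 : GM3_stmt) (hGM4 : GM4_stmt) (hGM7 : GM7_stmt) (hBR2 : BR2_stmt)
    (hXC1 : XC1_stmt) (hΓ : IsClosedSurfaceGroup Γ)
    (lm lp : WeightedMulticurve Γ) (hfill : Fill lm lp) (p p' : Bd × Bd)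
    (hp : IsLf lm lp p) (hp' : IsLf lm lp p')
    (hside : ∀ c, Relation.ReflTransGen (XC2_R lm lp) p c →
      Behind (sw p') c.1 ∧ Behind (sw p') c.2)
    (hn : ¬ Relation.ReflTransGen (XC2_R lm lp) p p') : False := by
  obtain ⟨b41, b42, b43, b44, b45, b46⟩ := id hBD4
  have hlsym := hBD12.2.2.2.2.2.2.2.2.2.1
  have hlsw := hBD12.2.2.2.2.2.2.2.2.2.2
  obtain ⟨φ, φ1, φ2, φ3, φ4, φ5⟩ := hBD3 p'.1
  set x := p'.1 with hx
  have hlf : ∀ c, Relation.ReflTransGen (XC2_R lm lp) p c → IsLf lm lp c := by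
    intro c hc
    cases hc with
    | refl => exact hp
    | tail _ hR => exact hR.2.1
  -- the general criterion for leaves outside the class
  have hout : ∀ q, IsLf lm lp q → ¬ Relation.ReflTransGen (XC2_R lm lp) p q →
      ∀ c, Relation.ReflTransGen (XC2_R lm lp) p c → c ≠ q ∧ c ≠ sw q ∧
      ¬ Linked q.1 q.2 c.1 c.2 := by
    intro q hq hnq c hc
    refine ⟨?_, ?_, ?_⟩
    · rintro rfl; exact hnq hc
    · rintro rfl
      obtain ⟨q', hq', hl⟩ := XC2_cross hfill hq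
      apply hnq
      have h1 : XC2_R lm lp (sw q) q' := ⟨XC2_swl hq, hq', (hlsw _ _ _ _).1 hl⟩
      have h2 : XC2_R lm lp q' q := ⟨hq', hq, (hlsym _ _ _ _).1 hl⟩
      exact (hc.tail h1).tail h2
    · intro hl
      exact hnq (hc.tail ⟨hlf c hc, hq, (hlsym _ _ _ _).1 hl⟩)
  -- the leaf crossing p' and its translates
  have hgen := hGM1 Γ hΓ p' (XC2_closed hp')
  obtain ⟨hgΓ, hgA, -⟩ := hgen
  set g := gen Γ p' with hg
  obtain ⟨a, b, hab, hca, hcb, hlab⟩ : ∃ a b, IsLf lm lp (a, b) ∧ Cyc x p'.2 a ∧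
      Cyc x b p'.2 ∧ Linked x p'.2 a b := by
    obtain ⟨q', hq', hl⟩ := XC2_cross hfill hp'
    rcases id hl with ⟨h1, h2⟩ | ⟨h1, h2⟩
    · exact ⟨q'.2, q'.1, XC2_swl hq', h2, h1, Or.inr ⟨h1, h2⟩⟩
    · exact ⟨q'.1, q'.2, hq', h2, h1, hl⟩
  have hgx : ∀ n : ℕ, g ^ n • x = x := by
    intro n
    have : g ∈ MulAction.stabilizer SL(2, ℝ) x := hgA.2.1
    exact pow_mem this n
  have hgy : ∀ n : ℕ, g ^ n • p'.2 = p'.2 := by
    intro n
    have : g ∈ MulAction.stabilizer SL(2, ℝ) p'.2 := hgA.2.2.1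
    exact pow_mem this n
  obtain ⟨n, hna⟩ := (hGM7 g p' a p.1 hgA (b42 _ _ _ hca)
    (hside p Relation.ReflTransGen.refl).1).1
  set a1 := g ^ n • a with ha1
  set b1 := g ^ n • b with hb1
  have hq1 : IsLf lm lp (a1, b1) := (XC2_inv_lf lm lp (pow_mem hgΓ n) (a, b)).2 hab
  have hca1 : Cyc x p'.2 a1 := by
    have := (hBD2 (g ^ n) x p'.2 a).2 hca
    rw [hgx, hgy] at this
    exact this
  have hcb1 : Cyc x b1 p'.2 := by
    have := (hBD2 (g ^ n) x b p'.2).2 hcb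
    rw [hgx, hgy] at this
    exact this
  have hq1n : ¬ Relation.ReflTransGen (XC2_R lm lp) p (a1, b1) := by
    intro h
    apply hn
    refine h.tail ⟨hq1, hp', ?_⟩
    rw [hlsym]
    exact Or.inr ⟨hcb1, hca1⟩
  have hnex : ∀ c, Relation.ReflTransGen (XC2_R lm lp) p c → c.1 ≠ x ∧ c.2 ≠ x ∧
      φ p'.2 < φ c.1 ∧ φ p'.2 < φ c.2 := by
    intro c hc
    obtain ⟨h1, h2⟩ := hside c hc
    have k1 : Cyc x p'.2 c.1 := b42 _ _ _ (b42 _ _ _ h1)
    have k2 : Cyc x p'.2 c.2 := b42 _ _ _ (b42 _ _ _ h2)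
    have n1 := (b41 _ _ _ k1).2.2
    have n2 := (b41 _ _ _ k2).2.2
    have n3 := (b41 _ _ _ k1).1.symm
    exact ⟨n1, n2, (φ3 _ _ n3 n1).1 k1, (φ3 _ _ n3 n2).1 k2⟩
  have ny : p'.2 ≠ x := (b41 _ _ _ hca).1.symm
  have na1 : a1 ≠ x := (b41 _ _ _ hca1).2.2
  have nb1 : b1 ≠ x := (b41 _ _ _ hcb1).1.symm
  have ma1 := (φ3 _ _ ny na1).1 hca1
  have mb1 := (φ3 _ _ nb1 ny).1 hcb1
  obtain ⟨np1, np2, mp1, mp2⟩ := hnex p Relation.ReflTransGen.refl
  have hbound : ∀ c, Relation.ReflTransGen (XC2_R lm lp) p c → φ c.1 < φ a1 ∧ φ c.2 < φ a1 := by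
    rcases XC2_side hBD3 hBD4 hBD12 hGM3 hΓ hp hq1 (hout _ hq1 hq1n) with h | h
    · exfalso
      have h1 : Cyc a1 p.1 b1 := (h p Relation.ReflTransGen.refl).1
      rw [φ4 _ _ _ na1 np1 nb1] at h1
      rw [φ4 _ _ _ ny np1 na1] at hna
      rcases h1 with h1 | h1 | h1 <;> rcases hna with h2 | h2 | h2 <;>
        linarith [h1.1, h1.2, h2.1, h2.2]
    · intro c hc
      obtain ⟨h1, h2⟩ := h c hc
      obtain ⟨n1, n2, m1, m2⟩ := hnex c hc
      have h1' : Cyc b1 c.1 a1 := h1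
      have h2' : Cyc b1 c.2 a1 := h2
      rw [φ4 _ _ _ nb1 n1 na1] at h1'
      rw [φ4 _ _ _ nb1 n2 na1] at h2'
      constructor
      · rcases h1' with h | h | h <;> linarith [h.1, h.2]
      · rcases h2' with h | h | h <;> linarith [h.1, h.2]
  -- sup and inf
  set D : Set ℝ := {t | ∃ c, Relation.ReflTransGen (XC2_R lm lp) p c ∧ (t = φ c.1 ∨ t = φ c.2)}
    with hD
  have hDa : BddAbove D := by
    refine ⟨φ a1, ?_⟩
    rintro t ⟨c, hc, rfl | rfl⟩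
    · exact (hbound c hc).1.le
    · exact (hbound c hc).2.le
  have hDb : BddBelow D := by
    refine ⟨φ p'.2, ?_⟩
    rintro t ⟨c, hc, rfl | rfl⟩
    · exact (hnex c hc).2.2.1.le
    · exact (hnex c hc).2.2.2.le
  have hD1 : ∀ c, Relation.ReflTransGen (XC2_R lm lp) p c → φ c.1 ∈ D ∧ φ c.2 ∈ D :=
    fun c hc => ⟨⟨c, hc, Or.inl rfl⟩, ⟨c, hc, Or.inr rfl⟩⟩
  have hDne : D.Nonempty := ⟨_, (hD1 p Relation.ReflTransGen.refl).1⟩
  obtain ⟨U, hU, eU⟩ := φ1 (sSup D)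
  obtain ⟨V, hV, eV⟩ := φ1 (sInf D)
  have hle : ∀ c, Relation.ReflTransGen (XC2_R lm lp) p c →
      φ V ≤ φ c.1 ∧ φ V ≤ φ c.2 ∧ φ c.1 ≤ φ U ∧ φ c.2 ≤ φ U := by
    intro c hc
    rw [eU, eV]
    exact ⟨csInf_le hDb (hD1 c hc).1, csInf_le hDb (hD1 c hc).2, le_csSup hDa (hD1 c hc).1,
      le_csSup hDa (hD1 c hc).2⟩
  have hVU : φ V < φ U := by
    obtain ⟨h1, h2, h3, h4⟩ := hle p Relation.ReflTransGen.refl
    have h5 : φ p.1 ≠ φ p.2 := by
      intro h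
      exact (XC2_closed hp).1 (φ2 _ _ np1 np2 h)
    rcases lt_or_gt_of_ne h5 with h | h <;> linarith
  have hUV : U ≠ V := by
    intro h; rw [h] at hVU; exact lt_irrefl _ hVU
  -- no leaf crosses (U, V)
  have key : ∀ q, IsLf lm lp q → ¬ (Cyc U q.1 V ∧ Cyc U V q.2) := by
    rintro q hq ⟨h1, h2⟩
    have nq2 : q.2 ≠ x := by
      intro h
      rw [h, (φ5 _ _).2.2.2.1, φ3 _ _ hU hV] at h2
      linarith
    have h2' : φ V < φ q.2 ∧ φ q.2 < φ U := by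
      rw [φ4 _ _ _ hU hV nq2] at h2
      rcases h2 with h | h | h
      · linarith [h.1]
      · exact h
      · linarith [h.2]
    have h1' : q.1 = x ∨ (q.1 ≠ x ∧ (φ q.1 < φ V ∨ φ U < φ q.1)) := by
      by_cases h : q.1 = x
      · exact Or.inl h
      · right
        refine ⟨h, ?_⟩
        rw [φ4 _ _ _ hU h hV] at h1
        rcases h1 with h1 | h1 | h1
        · linarith [h1.1, h1.2]
        · exact Or.inl h1.1
        · exact Or.inr h1.2
    by_cases hr : Relation.ReflTransGen (XC2_R lm lp) p q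
    · obtain ⟨l1, l2, l3, l4⟩ := hle q hr
      obtain ⟨n1, n2, -, -⟩ := hnex q hr
      rcases h1' with h | ⟨-, h | h⟩
      · exact n1 h
      · linarith
      · linarith
    · -- endpoints of the class on both sides of q.2
      obtain ⟨e, he, hne, heU⟩ : ∃ e : Bd, (∃ c, Relation.ReflTransGen (XC2_R lm lp) p c ∧
          (e = c.1 ∨ e = c.2)) ∧ e ≠ x ∧ φ q.2 < φ e := by
        have : φ q.2 < sSup D := eU ▸ h2'.2
        obtain ⟨t, ⟨c, hc, ht⟩, hlt⟩ := exists_lt_of_lt_csSup hDne this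
        rcases ht with rfl | rfl
        · exact ⟨c.1, ⟨c, hc, Or.inl rfl⟩, (hnex c hc).1, hlt⟩
        · exact ⟨c.2, ⟨c, hc, Or.inr rfl⟩, (hnex c hc).2.1, hlt⟩
      obtain ⟨e', he', hne', heV⟩ : ∃ e : Bd, (∃ c, Relation.ReflTransGen (XC2_R lm lp) p c ∧
          (e = c.1 ∨ e = c.2)) ∧ e ≠ x ∧ φ e < φ q.2 := by
        have : sInf D < φ q.2 := eV ▸ h2'.1
        obtain ⟨t, ⟨c, hc, ht⟩, hlt⟩ := exists_lt_of_csInf_lt hDne this
        rcases ht with rfl | rfl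
        · exact ⟨c.1, ⟨c, hc, Or.inl rfl⟩, (hnex c hc).1, hlt⟩
        · exact ⟨c.2, ⟨c, hc, Or.inr rfl⟩, (hnex c hc).2.1, hlt⟩
      have heb : φ V ≤ φ e ∧ φ e ≤ φ U := by
        obtain ⟨c, hc, rfl | rfl⟩ := he
        · exact ⟨(hle c hc).1, (hle c hc).2.2.1⟩
        · exact ⟨(hle c hc).2.1, (hle c hc).2.2.2⟩
      have heb' : φ V ≤ φ e' ∧ φ e' ≤ φ U := by
        obtain ⟨c, hc, rfl | rfl⟩ := he'
        · exact ⟨(hle c hc).1, (hle c hc).2.2.1⟩
        · exact ⟨(hle c hc).2.1, (hle c hc).2.2.2⟩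
      have hboth : (Cyc q.1 e q.2 ∧ Cyc q.1 e' q.2) ∨ (Cyc q.1 q.2 e ∧ Cyc q.1 q.2 e') := by
        rcases XC2_side hBD3 hBD4 hBD12 hGM3 hΓ hp hq (hout _ hq hr) with h | h
        · left
          obtain ⟨c, hc, hce⟩ := he
          obtain ⟨c', hc', hce'⟩ := he'
          constructor
          · rcases hce with rfl | rfl
            · exact (h c hc).1
            · exact (h c hc).2
          · rcases hce' with rfl | rfl
            · exact (h c' hc').1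
            · exact (h c' hc').2
        · right
          obtain ⟨c, hc, hce⟩ := he
          obtain ⟨c', hc', hce'⟩ := he'
          constructor
          · rcases hce with rfl | rfl
            · exact b42 _ _ _ (b42 _ _ _ (h c hc).1)
            · exact b42 _ _ _ (b42 _ _ _ (h c hc).2)
          · rcases hce' with rfl | rfl
            · exact b42 _ _ _ (b42 _ _ _ (h c' hc').1)
            · exact b42 _ _ _ (b42 _ _ _ (h c' hc').2)
      rcases h1' with hq1x | ⟨nq1, h1'⟩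
      · rw [hq1x] at hboth
        rcases hboth with ⟨h3, -⟩ | ⟨-, h3⟩
        · rw [φ3 _ _ hne nq2] at h3
          linarith
        · rw [φ3 _ _ nq2 hne'] at h3
          linarith
      · rcases hboth with ⟨h3, h4⟩ | ⟨h3, h4⟩
        · rw [φ4 _ _ _ nq1 hne nq2] at h3
          rw [φ4 _ _ _ nq1 hne' nq2] at h4
          rcases h1' with h1' | h1' <;> rcases h3 with h3 | h3 | h3 <;>
            rcases h4 with h4 | h4 | h4 <;>
            linarith [h3.1, h3.2, h4.1, h4.2, heb.1, heb.2, heb'.1, heb'.2]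
        · rw [φ4 _ _ _ nq1 nq2 hne] at h3
          rw [φ4 _ _ _ nq1 nq2 hne'] at h4
          rcases h1' with h1' | h1' <;> rcases h3 with h3 | h3 | h3 <;>
            rcases h4 with h4 | h4 | h4 <;>
            linarith [h3.1, h3.2, h4.1, h4.2, heb.1, heb.2, heb'.1, heb'.2]
  have hnl : ∀ q, IsLf lm lp q → ¬ Linked U V q.1 q.2 := by
    rintro q hq (h | h)
    · exact key q hq h
    · exact key (sw q) (XC2_swl hq) h
  have hnUV : ¬ IsLf lm lp (U, V) := by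
    intro h
    obtain ⟨q', hq', hl⟩ := XC2_cross hfill h
    exact hnl q' hq' hl
  have hnVU : ¬ IsLf lm lp (V, U) := fun h => hnUV (XC2_swl h)
  obtain ⟨g1, g2⟩ := XC2_geod hPT2 hPT4 lm lp U V hUV (fun q hq => (XC2_closed hq).1) hnl hnUV hnVU
  exact XC2_nogeod hPT1 hPT5 hBD6 hBR2 hGM4 hXC1 hΓ lm lp hfill U V hUV g1 g2

/-- XC2 -/
theorem XC2 (hBD2 : BD2_stmt) (hBD3 : BD3_stmt) (hBD4 : BD4_stmt) (hBD6 : BD6_stmt)
    (hBD12 : BD12_stmt) (hPT1 : PT1_stmt) (hPT2 : PT2_stmt) (hPT4 : PT4_stmt) (hPT5 : PT5_stmt)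
    (hGM1 : GM1_stmt) (hGM3 : GM3_stmt) (hGM4 : GM4_stmt) (hGM7 : GM7_stmt) (hBR2 : BR2_stmt)
    (hXC1 : XC1_stmt) : XC2_stmt := by
  intro Γ hΓ lm lp hfill p p' hp hp'
  show Relation.ReflTransGen (XC2_R lm lp) p p'
  by_contra hn
  have hlsym := hBD12.2.2.2.2.2.2.2.2.2.1
  have hlsw := hBD12.2.2.2.2.2.2.2.2.2.2
  have hlf : ∀ c, Relation.ReflTransGen (XC2_R lm lp) p c → IsLf lm lp c := by
    intro c hc
    cases hc with
    | refl => exact hp
    | tail _ hR => exact hR.2.1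
  have hnsw : ¬ Relation.ReflTransGen (XC2_R lm lp) p (sw p') := by
    intro hc
    obtain ⟨q', hq', hl⟩ := XC2_cross hfill hp'
    apply hn
    have h1 : XC2_R lm lp (sw p') q' := ⟨XC2_swl hp', hq', (hlsw _ _ _ _).1 hl⟩
    have h2 : XC2_R lm lp q' p' := ⟨hq', hp', (hlsym _ _ _ _).1 hl⟩
    exact (hc.tail h1).tail h2
  have hout : ∀ c, Relation.ReflTransGen (XC2_R lm lp) p c → c ≠ p' ∧ c ≠ sw p' ∧
      ¬ Linked p'.1 p'.2 c.1 c.2 := by
    intro c hc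
    refine ⟨?_, ?_, ?_⟩
    · rintro rfl; exact hn hc
    · rintro rfl; exact hnsw hc
    · intro hl
      exact hn (hc.tail ⟨hlf c hc, hp', (hlsym _ _ _ _).1 hl⟩)
  rcases XC2_side hBD3 hBD4 hBD12 hGM3 hΓ hp hp' hout with h | h
  · exact XC2_core hBD2 hBD3 hBD4 hBD6 hBD12 hPT1 hPT2 hPT4 hPT5 hGM1 hGM3 hGM4 hGM7 hBR2 hXC1
      hΓ lm lp hfill p (sw p') hp (XC2_swl hp') h hnsw
  · exact XC2_core hBD2 hBD3 hBD4 hBD6 hBD12 hPT1 hPT2 hPT4 hPT5 hGM1 hGM3 hGM4 hGM7 hBR2 hXC1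
      hΓ lm lp hfill p p' hp hp' h hn

end

end AdSBend
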