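import Pool.Agent.helper69.AD.GS6

/-! XE7: the images of the visible points are dense. -/

open scoped MatrixGroups LinearAlgebra.Projectivization
open Matrix UpperHalfPlane

namespace AdSBend

noncomputable section

open LeafSystem

variable {Γ : Subgroup SL(2, ℝ)}

/-- product of the off-diagonal entries -/
def XE7_beta (R : SL(2, ℝ)) : ℝ := R.1 0 1 * R.1 1 0

/-- positive up to sign -/
def XE7_pm (R : SL(2, ℝ)) : Prop := PosMat R ∨ PosMat (-R)

theorem XE7_beta_neg (R : SL(2, ℝ)) : XE7_beta (-R) = XE7_beta R := by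
  unfold XE7_beta
  rw [Matrix.SpecialLinearGroup.coe_neg]
  simp

theorem XE7_mul_apply (R R' : SL(2, ℝ)) (i j : Fin 2) :
    (R * R').1 i j = R.1 i 0 * R'.1 0 j + R.1 i 1 * R'.1 1 j := by
  rw [Matrix.SpecialLinearGroup.coe_mul, Matrix.mul_apply, Fin.sum_univ_two]

theorem XE7_beta_mul_pos {R R' : SL(2, ℝ)} (h : PosMat R) (h' : PosMat R') :
    XE7_beta R + XE7_beta R' ≤ XE7_beta (R * R') := by
  unfold XE7_beta
  rw [XE7_mul_apply, XE7_mul_apply]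
  have d := R.2
  have d' := R'.2
  rw [Matrix.det_fin_two] at d d'
  have a00 := h 0 0
  have a01 := h 0 1
  have a10 := h 1 0
  have a11 := h 1 1
  have b00 := h' 0 0
  have b01 := h' 0 1
  have b10 := h' 1 0
  have b11 := h' 1 1
  set a := R.1 0 0
  set b := R.1 0 1
  set c := R.1 1 0
  set e := R.1 1 1
  set a' := R'.1 0 0
  set b' := R'.1 0 1
  set c' := R'.1 1 0
  set e' := R'.1 1 1
  have h1 : a * e = 1 + b * c := by linarith
  have h2 : a' * e' = 1 + b' * c' := by linarith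
  have h3 : (a * b' + b * e') * (c * a' + e * c') =
      (a * e) * (b' * c') + (b * c) * (a' * e') + a * c * (a' * b') + b * e * (e' * c') := by ring
  rw [h3, h1, h2]
  have : 0 < b * c * (b' * c') := by positivity
  have : 0 < a * c * (a' * b') := by positivity
  have : 0 < b * e * (e' * c') := by positivity
  nlinarith

theorem XE7_beta_mul {R R' : SL(2, ℝ)} (h : XE7_pm R) (h' : XE7_pm R') :
    XE7_beta R + XE7_beta R' ≤ XE7_beta (R * R') := by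
  rcases h with h | h <;> rcases h' with h' | h'
  · exact XE7_beta_mul_pos h h'
  · have := XE7_beta_mul_pos h h'
    rw [XE7_beta_neg, mul_neg, XE7_beta_neg] at this
    exact this
  · have := XE7_beta_mul_pos h h'
    rw [XE7_beta_neg, neg_mul, XE7_beta_neg] at this
    exact this
  · have := XE7_beta_mul_pos h h'
    rw [XE7_beta_neg, XE7_beta_neg, neg_mul_neg] at this
    exact this

theorem XE7_beta_nonneg {R : SL(2, ℝ)} (h : XE7_pm R) : 0 ≤ XE7_beta R := by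
  rcases h with h | h
  · exact mul_nonneg (h 0 1).le (h 1 0).le
  · rw [← XE7_beta_neg]
    exact mul_nonneg (h 0 1).le (h 1 0).le

theorem XE7_beta_Dm (R : SL(2, ℝ)) (t : ℝ) : XE7_beta (R * Dm t) = XE7_beta R := by
  unfold XE7_beta
  rw [XE7_mul_apply, XE7_mul_apply]
  have e : Real.exp (-(t / 2)) * Real.exp (t / 2) = 1 := by
    rw [← Real.exp_add]; simp
  simp only [Dm, Matrix.of_apply, Matrix.cons_val', Matrix.cons_val_zero, Matrix.cons_val_one,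
    Matrix.cons_val_fin_one, Matrix.empty_val']
  linear_combination (R.1 0 1 * R.1 1 0) * e

theorem XE7_beta_peq {R R' : SL(2, ℝ)} (h : PEq R R') : XE7_beta R = XE7_beta R' := by
  rcases h with h | h
  · rw [h]
  · rw [h, XE7_beta_neg]

theorem XE7_smul_mk (M : SL(2, ℝ)) (u v : Fin 2 → ℝ) (hu : u ≠ 0) (hv : v ≠ 0)
    (h : M • (Projectivization.mk ℝ u hu : Bd) = Projectivization.mk ℝ v hv) :
    ∃ a : ℝ, M.1.mulVec u = a • v := by
  rw [Projectivization.smul_mk, Projectivization.mk_eq_mk_iff'] at h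
  obtain ⟨a, ha⟩ := h
  exact ⟨a, ha.symm⟩

theorem XE7_col0 (M : SL(2, ℝ)) (s : ℝ) (h : M • bInf = bPt s) : M.1 0 0 = s * M.1 1 0 := by
  obtain ⟨a, ha⟩ := XE7_smul_mk M _ _ _ _ h
  have h0 := congrFun ha 0
  have h1 := congrFun ha 1
  simp [Matrix.mulVec, dotProduct, Fin.sum_univ_two] at h0 h1
  rw [h0, h1]; ring

theorem XE7_col1 (M : SL(2, ℝ)) (s : ℝ) (h : M • bZero = bPt s) : M.1 0 1 = s * M.1 1 1 := by
  obtain ⟨a, ha⟩ := XE7_smul_mk M _ _ _ _ h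
  have h0 := congrFun ha 0
  have h1 := congrFun ha 1
  simp [Matrix.mulVec, dotProduct, Fin.sum_univ_two] at h0 h1
  rw [h0, h1]; ring

theorem XE7_beta_eq (M : SL(2, ℝ)) (s t : ℝ) (hst : s < t) (h0 : M • bInf = bPt s)
    (h1 : M • bZero = bPt t) : XE7_beta (M⁻¹ * Rm) = s / (t - s) := by
  have e0 := XE7_col0 M s h0
  have e1 := XE7_col1 M t h1
  have d := M.2
  rw [Matrix.det_fin_two, e0, e1] at d
  unfold XE7_beta
  rw [XE7_mul_apply, XE7_mul_apply, Matrix.SpecialLinearGroup.SL2_inv_expl]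
  simp only [Rm, Matrix.of_apply, Matrix.cons_val', Matrix.cons_val_zero, Matrix.cons_val_one,
    Matrix.cons_val_fin_one, Matrix.empty_val']
  rw [eq_div_iff (by linarith : t - s ≠ 0)] 
  rw [e0]
  linear_combination s * d

theorem XE7_neg_smul_bd (g : SL(2, ℝ)) (x : Bd) : (-g) • x = g • x := by
  induction x using Projectivization.ind with | _ u hu =>
  rw [Projectivization.smul_mk, Projectivization.smul_mk, Projectivization.mk_eq_mk_iff']
  refine ⟨-1, ?_⟩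
  have h1 : ((-g : SL(2, ℝ))).1.mulVec u = -(g.1.mulVec u) := by
    rw [Matrix.SpecialLinearGroup.coe_neg, Matrix.neg_mulVec]
  exact (neg_one_smul ℝ (g.1.mulVec u)).trans h1.symm

theorem XE7_PEq_smul {g h : SL(2, ℝ)} (e : PEq g h) (x : Bd) : g • x = h • x := by
  rcases e with e | e
  · rw [e]
  · rw [e, XE7_neg_smul_bd]

theorem XE7_pos (g : SL(2, ℝ)) : PEq g (pos g) := by
  unfold pos
  split_ifs
  · left; rfl
  · right; rw [neg_neg]

/-- the collar inequality -/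
theorem XE7_collar (hBD4 : BD4_stmt) (hBD6 : BD6_stmt) (hBD7 : BD7_stmt) (hBD8 : BD8_stmt)
    (hGM1 : GM1_stmt) (hPN2 : PN2_stmt) (hBD2 : BD2_stmt) (hBD11 : BD11_stmt)
    (hΓ : IsClosedSurfaceGroup Γ) (S : LeafSystem Γ) (f : Bd ≃ Bd) (r : SL(2, ℝ) → SL(2, ℝ))
    (hc : IsConjBy Γ f r) (p q : Bd × Bd) (hp : p ∈ S.L) (hpq : S.CoPl (sw p) q)
    (G G' : SL(2, ℝ)) (hG : IsFrame G (f p.1, f p.2)) (hG' : IsFrame G' (f q.1, f q.2)) :
    1 / (Real.exp (len (r (gen Γ (sw p)))) - 1) ≤ XE7_beta (G'⁻¹ * G) := by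
  obtain ⟨b41, b42, b43, b44, b45, b46⟩ := hBD4
  obtain ⟨b61, b62, b63, b64, b65, b66, b67⟩ := hBD6
  obtain ⟨b71, b72, b73, b74, b75, b76, b77, b78, b79⟩ := hBD7
  obtain ⟨b81, b82, b83, b84, b85, b86, b87, b88⟩ := hBD8
  obtain ⟨b111, b112, b113, b114, b115, b116⟩ := hBD11 Γ f r hc
  have hsp : sw p ∈ S.L := S.swap p hp
  have hgen : IsGen Γ (sw p) (gen Γ (sw p)) := hGM1 Γ hΓ (sw p) (S.closed _ hsp)
  obtain ⟨hgΓ, hgA, -⟩ := hgen
  set g := gen Γ (sw p) with hg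
  have hA : Attracts (r g) (f p.2, f p.1) := b115 g hgΓ (sw p) hgA
  obtain ⟨F0, hF0⟩ := b61 (f p.2, f p.1) hA.1
  obtain ⟨hpos, hlen⟩ := b82 _ F0 _ hA hF0
  set l := len (r g) with hl
  -- the leaf q and its translate
  have hgsp : ga g (sw p) = sw p := by
    show (g • p.2, g • p.1) = (p.2, p.1)
    rw [show g • p.2 = p.2 from hgA.2.1, show g • p.1 = p.1 from hgA.2.2.1]
  have hpgq : S.CoPl (sw p) (ga g q) := by
    have := (hPN2 Γ hΓ S).2.1 g hgΓ _ _ hpq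
    have e : ((g • (sw p).1, g • (sw p).2) : Bd × Bd) = sw p := hgsp
    rw [e] at this
    exact this
  have hfac : Facing (sw p) q := hpq.2.2.1
  have hne : q ≠ ga g q := by
    intro e
    have e1 : g • q.1 = q.1 := (congrArg Prod.fst e).symm
    rcases b88 g (sw p) q.1 hgA e1 with h | h
    · exact (b41 _ _ _ hfac.1).2.2 h
    · exact (b41 _ _ _ hfac.1).2.1 h.symm
  have hqgq : Facing q (ga g q) := ((hPN2 Γ hΓ S).2.2 _ _ _ hpq hpgq hne).2.2.1
  have hfac' := (b113 (sw p) q).2 hfac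
  have hqgq' := (b113 q (ga g q)).2 hqgq
  obtain ⟨c1, c2⟩ := hfac'
  obtain ⟨d1, d2⟩ := hqgq'
  simp only at c1 c2 d1 d2
  have c3 : Cyc (f p.1) (f q.1) (f p.2) := b42 _ _ _ c1
  have c4 : Cyc (f p.2) (f p.1) (f q.2) := (b45 _ _ _ _ c1 c2).1
  have c5 : Cyc (f p.1) (f q.2) (f p.2) := b42 _ _ _ c4
  obtain ⟨s, hs, es⟩ := (b71 F0 (f p.2, f p.1) (f q.1) hF0).2.1 c3
  obtain ⟨t, ht, et⟩ := (b71 F0 (f p.2, f p.1) (f q.2) hF0).2.1 c5
  have hFI : F0 • bInf = f p.2 := hF0.1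
  have hFZ : F0 • bZero = f p.1 := hF0.2
  have hst : s < t := by
    rw [es, et, ← hFI, hBD2] at c2
    exact (b76 _ _).1 c2
  have hgq : f (g • q.1) = F0 • bPt (Real.exp l * s) := by
    rw [hc.2 g hgΓ, XE7_PEq_smul (XE7_pos (r g)), hpos, es, mul_smul, mul_smul, inv_smul_smul,
      b77]
  have htl : t < Real.exp l * s := by
    rw [hgq, es, et, hBD2, b75] at d1
    have h1 : 1 < Real.exp l := by
      rw [← Real.exp_zero]; exact Real.exp_lt_exp.mpr hlen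
    have h2 : s < Real.exp l * s := by nlinarith
    rcases d1 with h | h | h
    · exact h.2
    · linarith [h.2]
    · linarith [h.1]
  -- the frame of f p
  have hFR : IsFrame (F0 * Rm) (f p.1, f p.2) := b65 F0 _ hF0
  obtain ⟨u, hu⟩ := b63 _ _ _ hFR hG
  have e1 : XE7_beta (G'⁻¹ * G) = XE7_beta ((F0⁻¹ * G')⁻¹ * Rm) := by
    have : PEq (G'⁻¹ * G) ((F0⁻¹ * G')⁻¹ * Rm * Dm u) := by
      rcases hu with hu | hu
      · left; rw [hu]; simp only [_root_.mul_inv_rev, _root_.inv_inv, mul_assoc]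
      · right; rw [hu]; simp only [_root_.mul_inv_rev, _root_.inv_inv, mul_assoc, mul_neg]
    rw [XE7_beta_peq this, XE7_beta_Dm]
  have e2 := XE7_beta_eq (F0⁻¹ * G') s t hst
    (by rw [mul_smul, hG'.1]; simp only; rw [es, inv_smul_smul])
    (by rw [mul_smul, hG'.2]; simp only; rw [et, inv_smul_smul])
  rw [e1, e2]
  have h1 : 1 < Real.exp l := by
    rw [← Real.exp_zero]; exact Real.exp_lt_exp.mpr hlen
  rw [div_le_div_iff₀ (by linarith) (by linarith)]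
  linarith

/-- a non-visible interval is behind one near leaf -/
theorem XE7_near (hBD2 : BD2_stmt) (hBD3 : BD3_stmt) (hXE3 : XE3_stmt)
    (hΓ : IsClosedSurfaceGroup Γ) (S : LeafSystem Γ) (f : Bd ≃ Bd)
    (hcyc : ∀ x y z, Cyc x y z → Cyc (f x) (f y) (f z)) (A : ℍ → SL(2, ℝ)) (x y x' y' : Bd)
    (hxx : Cyc x x' y') (hyy : Cyc x y' y) (hno : ∀ z c, S.OffPt z → S.Vis z c →
      ¬ Cyc x (A z • f c) y) (z : ℍ) (hz : S.OffPt z) :
    ∃ p ∈ S.L, S.Near p z ∧ Inside (x', y') (A z • f p.1, A z • f p.2) := by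
  obtain ⟨φ, φ1, φ2, φ3, φ4, φ5⟩ := hBD3 x
  have hx' : x' ≠ x := by
    rintro rfl; exact (φ5 y' y').1 hxx
  have hy' : y' ≠ x := by
    rintro rfl; exact (φ5 x' x').2.1 hxx
  have hy : y ≠ x := by
    rintro rfl; exact (φ5 y' y').2.1 hyy
  have l1 : φ x' < φ y' := (φ3 _ _ hx' hy').1 hxx
  have l2 : φ y' < φ y := (φ3 _ _ hy' hy).1 hyy
  obtain ⟨e1, -, e3⟩ := hXE3 Γ hΓ S z hz
  set c := f.symm ((A z)⁻¹ • x') with hc
  have hfc : A z • f c = x' := by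
    rw [hc, Equiv.apply_symm_apply, smul_inv_smul]
  have hnv : ¬ S.Vis z c := by
    intro h
    apply hno z c hz h
    rw [hfc]
    exact (φ3 _ _ hx' hy).2 (l1.trans l2)
  obtain ⟨p, hp, hpn, hpb⟩ := (e1 c).1 hnv
  refine ⟨p, hp, hpn, ?_⟩
  obtain ⟨v1, v2⟩ := e3 p hp hpn
  have n1 := hno z _ hz v1
  have n2 := hno z _ hz v2
  have hb : Cyc (A z • f p.1) x' (A z • f p.2) := by
    rw [← hfc, hBD2]
    exact hcyc _ _ _ hpb
  show Cyc (A z • f p.1) x' y' ∧ Cyc (A z • f p.1) y' (A z • f p.2)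
  generalize A z • f p.1 = a at n1 hb ⊢
  generalize A z • f p.2 = b at n2 hb ⊢
  by_cases ha : a = x
  · subst ha
    have hbx : b ≠ a := by
      rintro rfl; exact (φ5 x' x').2.1 hb
    refine ⟨hxx, (φ3 _ _ hy' hbx).2 ?_⟩
    rw [φ3 _ _ hbx hy, not_lt] at n2
    linarith
  · rw [φ3 _ _ ha hy, not_lt] at n1
    have hbx : b ≠ x := by
      rintro rfl
      rw [(φ5 a x').2.2.2.1, φ3 _ _ ha hx'] at hb
      linarith
    rw [φ3 _ _ hbx hy, not_lt] at n2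
    rw [φ4 _ _ _ ha hx' hbx] at hb
    rw [φ4 _ _ _ ha hx' hy', φ4 _ _ _ ha hy' hbx]
    rcases hb with h | h | h
    · linarith [h.1]
    · refine ⟨Or.inr (Or.inl ⟨l1, by linarith⟩), Or.inr (Or.inl ⟨by linarith, h.2⟩)⟩
    · linarith [h.2, h.1]

theorem XE7_tw_fix (hTW1 : TW1_stmt) (hBD6 : BD6_stmt) (hBD7 : BD7_stmt) (g : SL(2, ℝ))
    (P : Bd × Bd) (h : Attracts g P) (s : ℝ) : twS g s • P.1 = P.1 ∧ twS g s • P.2 = P.2 := by
  obtain ⟨F, hF⟩ := hBD6.1 P h.1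
  rw [(hTW1.1 g F P s h hF).1]
  have h8 := hBD7.2.2.2.2.2.2.2.1 s
  refine ⟨?_, ?_⟩
  · conv_lhs => rw [← hF.1]
    rw [mul_smul, mul_smul, inv_smul_smul, h8.1, hF.1]
  · conv_lhs => rw [← hF.2]
    rw [mul_smul, mul_smul, inv_smul_smul, h8.2, hF.2]

/-- XE7 -/
theorem XE7 (hBD2 : BD2_stmt) (hBD3 : BD3_stmt) (hBD4 : BD4_stmt) (hBD6 : BD6_stmt)
    (hBD7 : BD7_stmt) (hBD8 : BD8_stmt) (hBD9 : BD9_stmt) (hBD11 : BD11_stmt)
    (hBD12 : BD12_stmt) (hGM1 : GM1_stmt) (hPN2 : PN2_stmt) (hPN3 : PN3_stmt)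
    (hPN4 : PN4_stmt) (hTW1 : TW1_stmt) (hTF2 : TF2_stmt) (hFB1 : FB1_stmt)
    (hXE3 : XE3_stmt) : XE7_stmt := by
  intro Γ hΓ S f r τ A hc hA x y hxy
  by_contra hcon
  have hno : ∀ z c, S.OffPt z → S.Vis z c → ¬ Cyc x (A z • f c) y := by
    intro z c h1 h2 h3
    exact hcon ⟨z, c, h1, h2, h3⟩
  by_cases hL : S.L.Nonempty
  swap
  · have hemp : ∀ p, p ∉ S.L := fun p hp => hL ⟨p, hp⟩
    obtain ⟨z', hz'⟩ := hBD4.2.2.2.2.2 x y hxy
    apply hno I (f.symm ((A I)⁻¹ • z')) (fun p hp => (hemp p hp).elim)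
      (fun p hp => (hemp p hp).elim)
    rw [Equiv.apply_symm_apply, smul_inv_smul]
    exact hz'
  obtain ⟨p₀, hp₀⟩ := hL
  obtain ⟨b41, b42, b43, b44, b45, b46⟩ := id hBD4
  obtain ⟨x', hx'⟩ := b46 x y hxy
  obtain ⟨y', hy'⟩ := b46 x' y (b41 _ _ _ hx').2.1
  have k1 : Cyc y x x' := b42 _ _ _ (b42 _ _ _ hx')
  have k2 : Cyc y x' y' := b42 _ _ _ (b42 _ _ _ hy')
  have k3 := b45 _ _ _ _ k1 k2
  have hxx : Cyc x x' y' := k3.2
  have hyy : Cyc x y' y := b42 _ _ _ k3.1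
  have hW : x' ≠ y' := (b41 _ _ _ hy').1
  obtain ⟨K, hK⟩ := hBD6.1 (x', y') hW
  -- bound of the lengths
  obtain ⟨s, hs⟩ := S.finite
  obtain ⟨M, hM⟩ : ∃ M : ℝ, ∀ q ∈ s, len (r (gen Γ q)) ≤ M := by
    refine ⟨∑ q ∈ s, |len (r (gen Γ q))|, fun q hq => ?_⟩
    exact (le_abs_self _).trans
      (Finset.single_le_sum (f := fun q => |len (r (gen Γ q))|) (fun _ _ => abs_nonneg _) hq)
  have hFB := (hFB1 Γ hΓ S r (hTF2 Γ hΓ S f r hc)).2.2.2.2
  have hMl : ∀ p ∈ S.L, len (r (gen Γ p)) ≤ M := by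
    intro p hp
    obtain ⟨γ, hγ, hγs⟩ := hs p hp
    rw [← (hFB p hp).2.2 γ hγ]
    exact hM _ hγs
  have hM0 : 0 < M := lt_of_lt_of_le (hFB p₀ hp₀).1 (hMl p₀ hp₀)
  set ε : ℝ := 1 / (Real.exp M - 1) with hε
  have hE1 : 1 < Real.exp M := by
    rw [← Real.exp_zero]; exact Real.exp_lt_exp.mpr hM0
  have hε0 : 0 < ε := by
    rw [hε]; exact one_div_pos.mpr (by linarith)
  have hεl : ∀ p ∈ S.L, ε ≤ 1 / (Real.exp (len (r (gen Γ p))) - 1) := by
    intro p hp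
    have h1 : 1 < Real.exp (len (r (gen Γ p))) := by
      rw [← Real.exp_zero]; exact Real.exp_lt_exp.mpr (hFB p hp).1
    have h2 := Real.exp_le_exp.mpr (hMl p hp)
    exact one_div_le_one_div_of_le (by linarith) (by linarith)
  have hnear := XE7_near hBD2 hBD3 hXE3 hΓ S f hc.1 A x y x' y' hxx hyy hno
  -- the chain
  obtain ⟨z₀, hz₀⟩ := (hPN3 Γ hΓ S p₀ hp₀).1
  obtain ⟨p₁, hp₁, hn₁, hI₁⟩ := hnear z₀ hz₀.1
  have hfne : ∀ p ∈ S.L, f p.1 ≠ f p.2 := fun p hp h => (S.closed p hp).1 (f.injective h)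
  have hfr : ∀ (g : SL(2, ℝ)), ∀ p ∈ S.L, ∃ H, IsFrame H (g • f p.1, g • f p.2) := by
    intro g p hp
    apply hBD6.1
    intro h
    exact hfne p hp (MulAction.injective g h)
  obtain ⟨H₁, hH₁⟩ := hfr (A z₀) p₁ hp₁
  have main : ∀ n : ℕ, ∃ (z : ℍ) (p : Bd × Bd) (H : SL(2, ℝ)), S.OffPt z ∧ p ∈ S.L ∧
      S.Near p z ∧ Inside (x', y') (A z • f p.1, A z • f p.2) ∧
      IsFrame H (A z • f p.1, A z • f p.2) ∧
      XE7_beta (K⁻¹ * H) + n * ε ≤ XE7_beta (K⁻¹ * H₁) := by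
    intro n
    induction n with
    | zero => exact ⟨z₀, p₁, H₁, hz₀.1, hp₁, hn₁, hI₁, hH₁, by simp⟩
    | succ n ih =>
      obtain ⟨z, p, H, hz, hp, hn, hI, hH, hle⟩ := ih
      have hsp : sw p ∈ S.L := S.swap p hp
      obtain ⟨z', hz'⟩ := (hPN3 Γ hΓ S (sw p) hsp).1
      have hacr : S.Across p z z' := (hPN3 Γ hΓ S p hp).2.1 z z' hn hz'
      have hAz : A z' = A z * twS (r (gen Γ p)) (τ p) := hA.2 z z' p hz hz'.1 hacr
      have hatt : Attracts (r (gen Γ p)) (f p.1, f p.2) := by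
        have hg := hGM1 Γ hΓ p (S.closed p hp)
        exact (hBD11 Γ f r hc).2.2.2.2.1 _ hg.1 p hg.2.1
      obtain ⟨t1, t2⟩ := XE7_tw_fix hTW1 hBD6 hBD7 _ _ hatt (τ p)
      simp only at t1 t2
      have a1 : A z' • f p.1 = A z • f p.1 := by rw [hAz, mul_smul, t1]
      have a2 : A z' • f p.2 = A z • f p.2 := by rw [hAz, mul_smul, t2]
      obtain ⟨q, hq, hqn, hqI⟩ := hnear z' hz'.1
      have hqp : q ≠ sw p := by
        rintro rfl
        have h1 : Cyc (A z • f p.1) y' (A z • f p.2) := hI.2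
        have h2 : Cyc (A z' • f p.2) y' (A z' • f p.1) := hqI.2
        rw [a1, a2] at h2
        exact b43 _ _ _ h1 (b42 _ _ _ (b42 _ _ _ h2))
      have hcp : S.CoPl (sw p) q :=
        ((hPN4 Γ hΓ S (sw p) hsp q hq z' hz').1 hqn).resolve_left hqp
      have hins : Inside q p := by
        have h1 : Facing q (sw p) := (hBD12.1 _ _).1 hcp.2.2.1
        exact (hBD12.2.1 _ _).1 h1
      have hins' : Inside (A z' • f q.1, A z' • f q.2) (A z • f p.1, A z • f p.2) := by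
        obtain ⟨i1, i2⟩ := ((hBD11 Γ f r hc).2.2.2.1 q p).2 hins
        rw [← a1, ← a2]
        exact ⟨(hBD2 _ _ _ _).2 i1, (hBD2 _ _ _ _).2 i2⟩
      obtain ⟨H', hH'⟩ := hfr (A z') q hq
      refine ⟨z', q, H', hz'.1, hq, hqn, hqI, hH', ?_⟩
      have pm1 : XE7_pm (K⁻¹ * H') := (hBD9 K H' _ _ hK hH').1 hqI
      have pm2 : XE7_pm (H'⁻¹ * H) := (hBD9 H' H _ _ hH' hH).1 hins'
      have m1 := XE7_beta_mul pm1 pm2
      have e1 : K⁻¹ * H' * (H'⁻¹ * H) = K⁻¹ * H := by group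
      rw [e1] at m1
      have m2 : ε ≤ XE7_beta (H'⁻¹ * H) := by
        have hG : IsFrame ((A z')⁻¹ * H) (f p.1, f p.2) := by
          constructor
          · rw [mul_smul, hH.1]; simp only; rw [← a1, inv_smul_smul]
          · rw [mul_smul, hH.2]; simp only; rw [← a2, inv_smul_smul]
        have hG' : IsFrame ((A z')⁻¹ * H') (f q.1, f q.2) := by
          constructor
          · rw [mul_smul, hH'.1]; simp only; rw [inv_smul_smul]
          · rw [mul_smul, hH'.2]; simp only; rw [inv_smul_smul]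
        have := XE7_collar hBD4 hBD6 hBD7 hBD8 hGM1 hPN2 hBD2 hBD11 hΓ S f r hc p q hp hcp
          _ _ hG hG'
        have e2 : ((A z')⁻¹ * H')⁻¹ * ((A z')⁻¹ * H) = H'⁻¹ * H := by group
        rw [e2] at this
        exact (hεl _ hsp).trans this
      push_cast
      linarith
  obtain ⟨n, hn⟩ := exists_nat_gt (XE7_beta (K⁻¹ * H₁) / ε)
  rw [div_lt_iff₀ hε0] at hn
  obtain ⟨z, p, H, hz, hp, hnr, hI, hH, hle⟩ := main n
  have := XE7_beta_nonneg ((hBD9 K H _ _ hK hH).1 hI)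
  linarith

end

end AdSBend
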